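import Pool.Agent.Work.MP_b928c0_nt_aut.Tame

namespace Pool.Agent.Results.MP_b928c0_nt.AutomaticSets

open Finset Classical

/-- `A` is `b`-automatic: its `b`-kernel is finite. -/
def IsAutomatic (b : ℕ) (A : Set ℕ) : Prop :=
  {B : Set ℕ | ∃ e r : ℕ, r < b ^ e ∧ B = {n | b ^ e * n + r ∈ A}}.Finite

/-- `V` is open in the topology on `ℕ` generated by the maps `n ↦ P n mod 1`, `P` a real polynomial:
for every `n ∈ V` there are finitely many `P` and `ε > 0` such that every `n'` with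
`P n' - P n` closer than `ε` to an integer for all these `P` is in `V`. -/
def PolyOpen (V : Set ℕ) : Prop :=
  ∀ n ∈ V, ∃ (S : Finset (Polynomial ℝ)) (ε : ℝ), 0 < ε ∧ ∀ n' : ℕ,
    (∀ P ∈ S, ∃ z : ℤ, |P.eval (n' : ℝ) - P.eval (n : ℝ) - z| < ε) → n' ∈ V

/-- for some `q ≥ 1` the set `W` is closed under multiplication by `q`-th powers -/
def PowClosed (W : Set ℕ) : Prop :=
  ∃ q, 1 ≤ q ∧ ∀ n ∈ W, ∀ R, 1 ≤ R → n * R ^ q ∈ W

/-- `B` is a finite union of sets `A ∩ V ∩ W`, `A` automatic in some base (the bases may differ),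
`V` of type `PolyOpen`, `W` of type `PowClosed`. -/
def Tame (B : Set ℕ) : Prop :=
  ∃ (m : ℕ) (b : Fin m → ℕ) (A V W : Fin m → Set ℕ),
    (∀ i, 2 ≤ b i ∧ IsAutomatic (b i) (A i) ∧ PolyOpen (V i) ∧ PowClosed (W i)) ∧
    ∀ n, n ∈ B ↔ ∃ i, n ∈ A i ∧ n ∈ V i ∧ n ∈ W i

/-- Let `B` be tame. For every `k` all elements of `B` outside a set of upper Banach density zero are
first terms of geometric progressions `n, n r, ..., n r ^ (k - 1)` in `B` with integer ratio `r ≥ 2`.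
So `B` contains a geometric progression of `k` terms as soon as it contains a sequence with bounded
gaps. -/
theorem result (B : Set ℕ) (hB : Tame B) (k : ℕ) :
    (∀ δ : ℝ, 0 < δ → ∃ H0 : ℕ, ∀ x H : ℕ, H0 ≤ H →
      (((Ico x (x + H)).filter (fun n => n ∈ B ∧
        ¬ ∃ r : ℕ, 2 ≤ r ∧ ∀ j < k, n * r ^ j ∈ B)).card : ℝ) ≤ δ * H) ∧
    ∀ (a : ℕ → ℕ) (c : ℕ), StrictMono a → (∀ i, a (i + 1) - a i ≤ c) → (∀ i, a i ∈ B) →
      ∃ n r : ℕ, 0 < n ∧ 2 ≤ r ∧ ∀ j < k, n * r ^ j ∈ B := by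
  obtain ⟨m, b, A, V, W, h, hB⟩ := hB
  have h1 : ∀ δ : ℝ, 0 < δ → ∃ H0 : ℕ, ∀ x H : ℕ, H0 ≤ H →
      (((Ico x (x + H)).filter (fun n => n ∈ B ∧
        ¬ ∃ r : ℕ, 2 ≤ r ∧ ∀ j < k, n * r ^ j ∈ B)).card : ℝ) ≤ δ * H := by
    intro δ hδ
    obtain ⟨H0, h0⟩ := Pool.Agent.Work.MP_b928c0_nt_aut.tame_almost b (fun i => (h i).1) A V W
      (fun i => (h i).2.1) (fun i => (h i).2.2.1) (fun i => (h i).2.2.2) k δ hδ
    refine ⟨H0, fun x H hH => le_trans ?_ (h0 x H hH)⟩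
    exact_mod_cast Finset.card_le_card fun n hn => by
      rw [Finset.mem_filter] at hn ⊢
      refine ⟨hn.1, (hB n).mp hn.2.1, ?_⟩
      rintro ⟨r, hr, i, hi⟩
      exact hn.2.2 ⟨r, hr, fun j hj => (hB _).mpr ⟨i, hi j hj⟩⟩
  refine ⟨h1, fun a c ha hc haB => ?_⟩
  obtain ⟨δ, hδ, hd⟩ := Pool.Agent.Work.MP_b928c0_nt_aut.syndetic_density a c ha hc B haB
  exact Pool.Agent.Work.MP_b928c0_nt_aut.exists_of_almost B k h1 δ hδ hd

end Pool.Agent.Results.MP_b928c0_nt.AutomaticSets
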