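import Pool.Agent.Work.MP_b928c0_sg_helper69.Five

namespace Pool.Agent.Results.MP_b928c0_nt.NearLogGaps

/-- For every `m ≥ 2` there is a strictly increasing sequence of positive integers with gaps at most
`C log a · exp (C (log log a) ^ (1 / m))` which contains no geometric progression of length
`2 ^ m + 1` (real ratio `r ≠ 0, ± 1`). -/
theorem result (m : ℕ) (hm : 2 ≤ m) : ∃ (a : ℕ → ℕ) (C : ℝ), StrictMono a ∧ (∀ i, 0 < a i) ∧
    (∀ i, (a (i + 1) : ℝ) - a i ≤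
      C * Real.log (a i) * Real.exp (C * Real.log (Real.log (a i)) ^ (1 / (m : ℝ)))) ∧
    ∀ x r : ℝ, x ≠ 0 → r ≠ 0 → r ≠ 1 → r ≠ -1 →
      ¬ ∀ j < 2 ^ m + 1, ∃ i, (a i : ℝ) = x * r ^ j :=
  Pool.SG69.five m hm

end Pool.Agent.Results.MP_b928c0_nt.NearLogGaps
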