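import Pool.Agent.Work.MP_b928c0_sg_helper69.Three

namespace Pool.Agent.Results.MP_b928c0_nt.ThreeTerm

/-- There is a strictly increasing sequence of positive integers with gaps at most
`C (log a i) ^ 3` which contains no geometric progression of length three (real ratio
`r ≠ 0, ± 1`). -/
theorem result : ∃ (a : ℕ → ℕ) (C : ℝ), StrictMono a ∧ (∀ i, 0 < a i) ∧
    (∀ i, (a (i + 1) : ℝ) - a i ≤ C * Real.log (a i) ^ 3) ∧
    ∀ x r : ℝ, x ≠ 0 → r ≠ 0 → r ≠ 1 → r ≠ -1 → ¬ ∀ j < 3, ∃ i, (a i : ℝ) = x * r ^ j :=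
  Pool.SG69.three

end Pool.Agent.Results.MP_b928c0_nt.ThreeTerm
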