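import Pool.Agent.Work.MP_b928c0_nt_tr.U3

namespace Pool.Agent.Results.MP_b928c0_nt.TradeOff

/-- Trade-off between gaps and lengths of geometric progressions. There is a constant `C` such that
for every nondecreasing gap function `g ≥ 2` with `log n / g n` nondecreasing and
`g n (log log n) ^ 2 ≤ log n` for large `n` there is a strictly increasing sequence of integers
`a i ≥ 3` with gaps `a (i + 1) - a i ≤ g (a i)` in which every geometric progression of `k` terms,
all of them at most `N`, has `k ^ 2 max (log g(N) log log N, g(N) / (log log N) ^ 2) ≤ C log N`. -/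
theorem result :
    ∃ C : ℝ, ∀ g : ℕ → ℝ, (∀ n, 2 ≤ g n) → Monotone g →
      (∀ m n : ℕ, 2 ≤ m → m ≤ n → g n * Real.log m ≤ g m * Real.log n) →
      (∃ n0 : ℕ, ∀ n : ℕ, n0 ≤ n → g n * Real.log (Real.log n) ^ 2 ≤ Real.log n) →
      ∃ a : ℕ → ℕ, StrictMono a ∧ (∀ i, 3 ≤ a i) ∧ (∀ i, (a (i + 1) : ℝ) - a i ≤ g (a i)) ∧
        ∀ (k N : ℕ) (x r : ℝ), x ≠ 0 → r ≠ 0 → r ≠ 1 → r ≠ -1 → 1 ≤ k →
          (∀ j < k, x * r ^ j ≤ N ∧ ∃ i, (a i : ℝ) = x * r ^ j) →
          (k : ℝ) ^ 2 * max (Real.log (g N) * Real.log (Real.log N))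
            (g N / Real.log (Real.log N) ^ 2) ≤ C * Real.log N :=
  Pool.Agent.Work.MP_b928c0_nt_tr.stmt_U

end Pool.Agent.Results.MP_b928c0_nt.TradeOff
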